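import Mathlib

set_option autoImplicit false

namespace Pool.Agent.Results.MP_8d021f_pr.Budget

open Filter Topology Finset

/-- Orderings `e_1, …, e_N` of a finite set `T`. -/
abbrev Ord {α : Type} (T : Finset α) : Type := Fin T.card ≃ T

/-- The first `i` entries of the ordering, most recent first: `[e_i, …, e_1]`. -/
def hist {α : Type} {T : Finset α} (σ : Ord T) : ℕ → List α
  | 0 => []
  | i + 1 => if h : i < T.card then (σ ⟨i, h⟩).1 :: hist σ i else hist σ i

/-- Probability of an event for a uniformly random ordering. -/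
noncomputable def prob {α : Type} {T : Finset α} (A : Set (Ord T)) : ℝ := A.ncard / Nat.card (Ord T)

/-- The edges bought by the online strategy `S`, which sees `[e_i, …, e_1]` and decides on `e_i`. -/
def bought {α : Type} [DecidableEq α] (S : List α → Bool) : List α → Finset α
  | [] => ∅
  | e :: l => if S (e :: l) then insert e (bought S l) else bought S l

/-- The edge set of `K_n`. -/
def K (n : ℕ) : Finset (Sym2 (Fin n)) := (⊤ : SimpleGraph (Fin n)).edgeFinset

/-- The graph on `[n]` with a given set of edges. -/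
def Gr {n : ℕ} (B : Finset (Sym2 (Fin n))) : SimpleGraph (Fin n) := SimpleGraph.fromEdgeSet B

/-- The hitting time of a property in the random graph process. -/
noncomputable def hit {n : ℕ} (P : Set (SimpleGraph (Fin n))) (σ : Ord (K n)) : ℕ :=
  sInf {t | Gr (hist σ t).toFinset ∈ P}

section
variable {α : Type} [DecidableEq α] {T : Finset α}

omit [DecidableEq α] in
lemma mem_hist (σ : Ord T) (e : α) (i : ℕ) : e ∈ hist σ i ↔ ∃ j : Fin T.card, j.1 < i ∧ (σ j).1 = e := by
  induction i with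
  | zero => simp [hist]
  | succ i ih =>
    rw [hist]
    split_ifs with h
    · rw [List.mem_cons, ih]
      refine ⟨?_, fun ⟨j, h1, h2⟩ => ?_⟩
      · rintro (rfl | ⟨j, h1, h2⟩)
        exacts [⟨⟨i, h⟩, by simp, rfl⟩, ⟨j, by omega, h2⟩]
      · by_cases e : j.1 = i
        · left; rw [← h2]; congr 2; exact Fin.ext e
        · exact Or.inr ⟨j, by omega, h2⟩
    · rw [ih]
      exact exists_congr fun j => and_congr_left fun _ => by have := j.2; omega

omit [DecidableEq α] in
lemma len_hist (σ : Ord T) {i : ℕ} (h : i ≤ T.card) : (hist σ i).length = i := by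
  induction i with
  | zero => rfl
  | succ i ih => rw [hist, dif_pos (by omega), List.length_cons, ih (by omega)]

omit [DecidableEq α] in
lemma hist_congr {σ σ' : Ord T} {i : ℕ} (h : ∀ j : Fin T.card, j.1 < i → σ j = σ' j) : hist σ i = hist σ' i := by
  induction i with
  | zero => rfl
  | succ i ih =>
    rw [hist, hist, ih fun j hj => h j (by omega)]
    split_ifs with h1
    · rw [h _ (by simp)]
    · rfl

lemma super (Φ : List α → ℝ) {t : ℕ} (ht : t ≤ T.card)
    (h : ∀ l : List α, l.length < t → (T \ l.toFinset).card = T.card - l.length →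
      ∑ e ∈ T \ l.toFinset, Φ (e :: l) ≤ (T.card - l.length : ℕ) * Φ l) :
    ∀ i ≤ t, ∑ σ : Ord T, Φ (hist σ i) ≤ Fintype.card (Ord T) * Φ [] := by
  intro i
  induction i with
  | zero => intro _; simp [hist]
  | succ i ih =>
    intro hi
    have hN : i < T.card := by omega
    refine le_trans ?_ (ih (by omega))
    have e1 : ∀ j ∈ Ici (⟨i, hN⟩ : Fin T.card),
        ∑ σ : Ord T, Φ (hist σ (i + 1)) = ∑ σ : Ord T, Φ ((σ j).1 :: hist σ i) := by
      intro j hj
      rw [mem_Ici, Fin.le_def] at hj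
      refine (Fintype.sum_equiv ((Equiv.swap ⟨i, hN⟩ j).equivCongr (Equiv.refl _)) _ _ fun σ => ?_).symm
      rw [hist, dif_pos hN, hist_congr (σ := (Equiv.swap ⟨i, hN⟩ j).equivCongr (Equiv.refl _) σ)
        (σ' := σ) fun k hk => ?_]
      · simp
      · simp only [Equiv.equivCongr_apply_apply, Equiv.symm_swap, Equiv.refl_apply]
        rw [Equiv.swap_apply_of_ne_of_ne (by intro h; simp [h] at hk) (by intro h; simp [h] at hk hj; omega)]
    have e2 : ∀ (σ : Ord T) (F : α → ℝ),
        ∑ j ∈ Ici (⟨i, hN⟩ : Fin T.card), F (σ j).1 = ∑ e ∈ T \ (hist σ i).toFinset, F e := by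
      intro σ F
      refine sum_bij (fun j _ => (σ j).1) (fun j hj => ?_) (fun a _ b _ h => σ.injective (Subtype.ext h))
        (fun e he => ?_) fun _ _ => rfl
      · rw [Finset.mem_sdiff, List.mem_toFinset, mem_hist]
        refine ⟨(σ j).2, fun ⟨k, h1, h2⟩ => ?_⟩
        rw [mem_Ici, Fin.le_def, ← σ.injective (Subtype.ext h2)] at hj
        simp at hj; omega
      · rw [Finset.mem_sdiff, List.mem_toFinset, mem_hist] at he
        refine ⟨σ.symm ⟨e, he.1⟩, ?_, by simp⟩
        rw [mem_Ici, Fin.le_def]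
        by_contra h1
        exact he.2 ⟨_, not_le.1 h1, by simp⟩
    have e3 := sum_congr rfl e1
    rw [sum_const, Fin.card_Ici, sum_comm, nsmul_eq_mul] at e3
    refine le_of_mul_le_mul_left ?_ (show (0 : ℝ) < (T.card - i : ℕ) by exact_mod_cast Nat.sub_pos_of_lt hN)
    rw [e3, mul_sum]
    refine sum_le_sum fun σ _ => ?_
    have e4 := h (hist σ i) (by rw [len_hist σ hN.le]; omega) (by
      have := e2 σ fun _ => 1
      simp only [sum_const, Fin.card_Ici, nsmul_eq_mul, mul_one, Nat.cast_inj] at this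
      rw [len_hist σ hN.le, ← this])
    rwa [len_hist σ hN.le, ← e2 σ fun e => Φ (e :: hist σ i)] at e4

lemma card_pos' : (0 : ℝ) < Nat.card (Ord T) := by
  have : Nonempty (Ord T) := ⟨T.equivFin.symm⟩
  exact_mod_cast Nat.card_pos

lemma markov (Φ : List α → ℝ) {t : ℕ} (ht : t ≤ T.card) (h0 : ∀ l, 0 ≤ Φ l)
    (h : ∀ l : List α, l.length < t → (T \ l.toFinset).card = T.card - l.length →
      ∑ e ∈ T \ l.toFinset, Φ (e :: l) ≤ (T.card - l.length : ℕ) * Φ l)
    {A : Set (Ord T)} (hA : ∀ σ ∈ A, 1 ≤ Φ (hist σ t)) : prob A ≤ Φ [] := by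
  classical
  rw [prob, div_le_iff₀ card_pos', Nat.card_eq_fintype_card, mul_comm, Set.ncard_eq_toFinset_card']
  refine le_trans ?_ (super Φ ht h t le_rfl)
  rw [card_eq_sum_ones, Nat.cast_sum]
  exact (sum_le_sum fun σ hσ => by simpa using hA σ (by simpa using hσ)).trans
    (sum_le_univ_sum_of_nonneg fun σ => h0 _)

lemma prob_ge {A B C : Set (Ord T)} (h : ∀ σ, σ ∉ B → σ ∉ C → σ ∈ A) :
    1 - (prob B + prob C) ≤ prob A ∧ prob A ≤ 1 := by
  have h1 : Nat.card (Ord T) ≤ A.ncard + (B.ncard + C.ncard) := by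
    rw [← Set.ncard_univ]
    refine (Set.ncard_le_ncard (t := A ∪ (B ∪ C)) fun σ _ => ?_).trans
      ((Set.ncard_union_le _ _).trans (Nat.add_le_add_left (Set.ncard_union_le _ _) _))
    have := h σ
    simp only [Set.mem_union]; tauto
  have h2 : A.ncard ≤ Nat.card (Ord T) := Set.ncard_le_card A
  have h3 := card_pos' (T := T)
  unfold prob
  rw [div_le_one h3, sub_le_iff_le_add, ← add_div, ← add_div, one_le_div h3]
  exact ⟨by exact_mod_cast h1, by exact_mod_cast h2⟩

lemma first_moment {ι : Type} (I : Finset ι) (F : ι → Finset α) {t a : ℕ} (ht : t < T.card)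
    (hF : ∀ i ∈ I, (F i).card = a) :
    prob (T := T) {σ | ∃ i ∈ I, F i ⊆ (hist σ t).toFinset} ≤ I.card * (t / (T.card - t : ℕ)) ^ a := by
  set q : ℝ := ((T.card - t : ℕ) : ℝ)⁻¹ with hq
  have q0 : 0 ≤ q := by positivity
  have := markov (T := T) (fun l => ∑ i ∈ I, ((t - l.length : ℕ) * q) ^ (F i \ l.toFinset).card) ht.le
    (fun l => by positivity) (fun l hl hc => ?_)
    (A := {σ | ∃ i ∈ I, F i ⊆ (hist σ t).toFinset}) fun σ ⟨i, hi, h⟩ => ?_
  · refine this.trans (le_of_eq ?_)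
    rw [sum_congr rfl fun i hi => show _ = (t * q) ^ a by simp [hF i hi]]
    simp [div_eq_mul_inv, hq]
  · rw [sum_comm, mul_sum]
    refine sum_le_sum fun i _ => ?_
    set y : ℝ := (t - (l.length + 1) : ℕ) * q with hy
    have y0 : 0 ≤ y := by positivity
    set b := (F i \ l.toFinset).card with hb
    have e1 : ((t - l.length : ℕ) : ℝ) * q = y + q := by
      rw [hy, show t - l.length = t - (l.length + 1) + 1 by omega]; push_cast; ring
    have e2 : ∀ e ∈ T \ l.toFinset, ((t - (e :: l).length : ℕ) * q) ^ (F i \ (e :: l).toFinset).card ≤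
        y ^ b + if e ∈ F i \ l.toFinset then y ^ (b - 1) else 0 := by
      intro e _
      rw [List.toFinset_cons, sdiff_insert, List.length_cons, ← hy]
      split_ifs with h
      · rw [card_erase_of_mem h]; exact le_add_of_nonneg_left (by positivity)
      · rw [erase_eq_of_notMem h, add_zero]
    refine (sum_le_sum e2).trans ?_
    rw [sum_add_distrib, sum_const, hc, sum_ite_mem, sum_const, e1, nsmul_eq_mul, nsmul_eq_mul]
    have e3 : (((T \ l.toFinset) ∩ (F i \ l.toFinset)).card : ℝ) ≤ b := by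
      exact_mod_cast card_le_card inter_subset_right
    have e4 : (1 : ℝ) ≤ (T.card - l.length : ℕ) * q := by
      rw [hq, ← div_eq_mul_inv, one_le_div (by exact_mod_cast Nat.sub_pos_of_lt ht)]
      exact_mod_cast (by omega)
    have e5 := pow_add_mul_le_add_pow y0 (b := q) (by positivity) b
    have e6 : 0 ≤ y ^ (b - 1) := by positivity
    have e7 := mul_le_mul_of_nonneg_left e5 (Nat.cast_nonneg (α := ℝ) (T.card - l.length))
    nlinarith [mul_le_mul_of_nonneg_right e3 e6, mul_le_mul_of_nonneg_left e4 (mul_nonneg (Nat.cast_nonneg b) e6)]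
  · refine le_trans ?_ (single_le_sum (f := fun i => (((t - (hist σ t).length : ℕ) : ℝ) * q) ^
      (F i \ (hist σ t).toFinset).card) (fun _ _ => by positivity) hi)
    simp [sdiff_eq_empty_iff_subset.2 h]

end

variable {n : ℕ}

def F (g : Fin n → Fin n) : Finset (Sym2 (Fin n)) := (univ.filter fun v => g v ≠ v).image fun v => s(v, g v)

lemma tree (G : SimpleGraph (Fin n)) (r : Fin n) (j : ℕ) (hj : j + 1 ≤ {v | G.Reachable r v}.ncard) :
    ∃ (U : Finset (Fin n)) (g : Fin n → Fin n), U.card = j + 1 ∧ r ∈ U ∧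
      (∀ v, g v ∈ if v ∈ U then U else {v}) ∧ (∀ v, g v ≠ v → G.Adj v (g v)) ∧ (F g).card = j := by
  induction j with
  | zero => exact ⟨{r}, id, by simp, by simp, fun v => by split_ifs <;> simp [*], by simp, by simp [F]⟩
  | succ j ih =>
    obtain ⟨U, g, h1, h2, h3, h4, h5⟩ := ih (by omega)
    obtain ⟨w, ⟨p⟩, hw⟩ : ∃ w, G.Reachable r w ∧ w ∉ U := by
      by_contra h
      have := Set.ncard_le_ncard (s := {v | G.Reachable r v}) (t := U) fun v hv => by
        by_contra h'; exact h ⟨v, hv, h'⟩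
      rw [Set.ncard_coe_finset] at this
      omega
    obtain ⟨⟨⟨u, v⟩, huv⟩, -, hu, hv⟩ := p.exists_boundary_dart U h2 hw
    simp only [mem_coe] at hu hv huv
    have gv : g v = v := by simpa [hv] using h3 v
    have e : F (Function.update g v u) = insert s(v, u) (F g) := by
      have : (univ.filter fun x => Function.update g v u x ≠ x) = insert v (univ.filter fun x => g x ≠ x) := by
        ext x
        by_cases hx : x = v <;> simp [hx, huv.ne]
      rw [F, this, image_insert, Function.update_self, F]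
      congr 1
      refine image_congr fun x hx => ?_
      have : x ≠ v := by rintro rfl; simp [gv] at hx
      simp [this]
    refine ⟨insert v U, Function.update g v u, by rw [card_insert_of_notMem hv, h1], by simp [h2],
      fun x => ?_, fun x hx => ?_, ?_⟩
    · by_cases hx : x = v
      · simp [hx, hu]
      · have := h3 x
        by_cases hU : x ∈ U <;> simp_all
    · by_cases hx' : x = v
      · simpa [hx'] using huv.symm
      · rw [Function.update_of_ne hx'] at hx ⊢; exact h4 x hx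
    · rw [e, card_insert_of_notMem, h5]
      intro h
      obtain ⟨x, hx, h⟩ := mem_image.1 h
      have a1 := h3 x
      have a2 := (mem_filter.1 hx).2
      have a3 : x ∈ U := by by_contra h'; simp [h'] at a1; exact a2 a1
      rw [if_pos a3] at a1
      rcases Sym2.eq_iff.1 h with h | h
      exacts [hv (h.1 ▸ a3), hv (h.2 ▸ a1)]

def P (k n : ℕ) : Set (SimpleGraph (Fin n)) :=
  {G | ∃ H ≤ G, (∀ v, (H.neighborSet v).ncard ≤ 3) ∧ ∃ r, k ≤ {v | H.Reachable r v}.ncard}

lemma card_K (n : ℕ) : (K n).card = n.choose 2 := by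
  rw [K, SimpleGraph.card_edgeFinset_top_eq_card_choose_two, Fintype.card_fin]

lemma lower {k t : ℕ} (ht : t < (K n).card) :
    prob (T := K n) {σ | Gr (hist σ t).toFinset ∈ P (k + 1) n} ≤
      (n.choose (k + 1) * (k + 1) ^ (k + 1) : ℕ) * (t / ((K n).card - t : ℕ)) ^ k := by
  set I := ((powersetCard (k + 1) univ).biUnion fun U : Finset (Fin n) =>
    Fintype.piFinset fun v => if v ∈ U then U else {v}).filter fun g => (F g).card = k with hI
  refine le_trans ?_ ((first_moment I F ht fun g hg => (mem_filter.1 hg).2).trans ?_)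
  · refine div_le_div_of_nonneg_right (Nat.cast_le.2 (Set.ncard_le_ncard ?_)) card_pos'.le
    rintro σ ⟨H, h1, -, r, h2⟩
    obtain ⟨U, g, a1, -, a2, a3, a4⟩ := tree H r k h2
    refine ⟨g, mem_filter.2 ⟨mem_biUnion.2 ⟨U, by simp [a1], Fintype.mem_piFinset.2 a2⟩, a4⟩, fun e he => ?_⟩
    obtain ⟨v, hv, rfl⟩ := mem_image.1 he
    exact ((SimpleGraph.fromEdgeSet_adj _).1 (h1 (a3 v (mem_filter.1 hv).2))).1
  · gcongr
    refine (card_filter_le _ _).trans (card_biUnion_le.trans ((sum_le_card_nsmul _ _ ((k + 1) ^ (k + 1))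
      fun U hU => le_of_eq ?_).trans (by simp)))
    have := (mem_powersetCard.1 hU).2
    simp [Fintype.card_piFinset, apply_ite card, this]

def deg (B : Finset (Sym2 (Fin n))) (v : Fin n) : ℕ := (B.filter (v ∈ ·)).card

lemma deg_insert (B : Finset (Sym2 (Fin n))) (u v w : Fin n) :
    deg (insert s(u, v) B) w ≤ deg B w + if w = u ∨ w = v then 1 else 0 := by
  rw [deg, filter_insert]
  by_cases h : w = u ∨ w = v
  · rw [if_pos (by simpa using h), if_pos h]; exact card_insert_le _ _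
  · rw [if_neg (by simpa using h), if_neg h]; rfl

def Valid (m : ℕ → ℕ) (k : ℕ) (x : ℕ × ℕ) (B : Finset (Sym2 (Fin n))) : Prop :=
  (∀ v, deg B v ≤ 3) ∧ B.card + 2 * m (x.1 + 1) ≤ m 1 + x.2 ∧ 1 ≤ x.1 ∧
    (x.2 < m (x.1 + 1) ∨ (x.1 = k ∧ x.2 = 0)) ∧
    ∃ U : Fin (m 1) → Finset (Fin n), (∀ s s', s ≠ s' → Disjoint (U s) (U s')) ∧
      (∀ s, (U s).card ≤ x.1 + 1 ∧ (∃ r, ∀ u ∈ U s, (Gr B).Reachable r u) ∧
        ∑ u ∈ U s, deg B u ≤ 2 * (U s).card) ∧
      m x.1 ≤ (univ.filter fun s => (U s).card = x.1).card + x.2 ∧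
      x.2 ≤ (univ.filter fun s => (U s).card = x.1 + 1).card

def nxt (m : ℕ → ℕ) (x : ℕ × ℕ) : ℕ × ℕ := if x.2 + 1 = m (x.1 + 1) then (x.1 + 1, 0) else (x.1, x.2 + 1)

lemma avail {m : ℕ → ℕ} {k j c : ℕ} {B : Finset (Sym2 (Fin n))} (hm : ∀ j, 1 ≤ j → 2 * m (j + 1) ≤ m j)
    (hp : ∀ j ≤ k, 0 < m j) (hn : 2 * (m 1 * (k + 2)) ≤ n) (hj : j < k) (h : Valid m k (j, c) B) :
    ∃ A ⊆ K n, m j * j * n ≤ 12 * A.card ∧ ∀ e ∈ A, Valid m k (nxt m (j, c)) (insert e B) := by
  obtain ⟨h1, h2, h3, h4, U, u1, u2, u3, u4⟩ := h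
  simp only at h2 h3 h4 u2 u3 u4
  have h5 : c < m (j + 1) := by omega
  set J := univ.filter fun s => (U s).card = j with hJ
  set Fr := J.biUnion fun s => (U s).filter fun u => deg B u ≤ 2 with hFr
  set W := univ \ (B.biUnion Sym2.toFinset ∪ univ.biUnion U) with hW
  have w1 : ∀ v ∈ W, deg B v = 0 ∧ ∀ s, v ∉ U s := by
    intro v hv
    simp only [hW, Finset.mem_sdiff, mem_univ, true_and, mem_union, mem_biUnion, not_or, not_exists,
      not_and, Sym2.mem_toFinset] at hv
    exact ⟨card_eq_zero.2 (filter_eq_empty_iff.2 hv.1), hv.2⟩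
  have f1 : ∀ u ∈ Fr, ∃ s, (U s).card = j ∧ u ∈ U s ∧ deg B u ≤ 2 := by
    intro u hu
    simpa [hFr, hJ] using hu
  have c1 : n ≤ 2 * W.card := by
    have a1 : (B.biUnion Sym2.toFinset).card ≤ B.card * 2 :=
      card_biUnion_le_card_mul _ _ _ fun e _ => by rw [Sym2.card_toFinset]; split_ifs <;> omega
    have a2 : (univ.biUnion U).card ≤ (univ : Finset (Fin (m 1))).card * k :=
      card_biUnion_le_card_mul _ _ _ fun s _ => (u2 s).1.trans hj
    have a3 := card_union_le (B.biUnion Sym2.toFinset) (univ.biUnion U)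
    have a4 := le_card_sdiff (B.biUnion Sym2.toFinset ∪ univ.biUnion U) univ
    rw [card_univ, Fintype.card_fin] at a2 a4
    rw [mul_add] at hn
    rw [hW]
    omega
  have c2 : J.card * j ≤ 3 * Fr.card := by
    rw [hFr, card_biUnion fun s _ s' _ h => (u1 s s' h).mono (filter_subset _ _) (filter_subset _ _),
      mul_sum, ← smul_eq_mul]
    refine card_nsmul_le_sum _ _ _ fun s hs => ?_
    have a1 := (mem_filter.1 hs).2
    have a2 := card_filter_add_card_filter_not (s := U s) fun u => deg B u ≤ 2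
    have a3 := (card_nsmul_le_sum ((U s).filter fun u => ¬ deg B u ≤ 2) (deg B) 3 fun u hu => by
      have := (mem_filter.1 hu).2; omega).trans
      ((sum_le_sum_of_subset (filter_subset _ _)).trans (u2 s).2.2)
    rw [smul_eq_mul] at a3
    omega
  have c3 := hm j h3
  refine ⟨image₂ (fun u v => s(u, v)) Fr W, fun e he => ?_, ?_, fun e he => ?_⟩
  · obtain ⟨u, hu, v, hv, rfl⟩ := mem_image₂.1 he
    obtain ⟨s, -, a1, -⟩ := f1 u hu
    have : u ≠ v := by rintro rfl; exact (w1 u hv).2 s a1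
    simpa [K] using this
  · rw [card_image₂_iff.2 ?_]
    · calc m j * j * n ≤ (2 * J.card) * j * (2 * W.card) := by gcongr; omega
        _ = 4 * (J.card * j) * W.card := by ring
        _ ≤ 4 * (3 * Fr.card) * W.card := by gcongr
        _ = _ := by ring
    · rintro ⟨u, v⟩ ⟨hu, hv⟩ ⟨u', v'⟩ ⟨hu', hv'⟩ h
      rcases Sym2.eq_iff.1 h with h | h
      · exact Prod.ext h.1 h.2
      · obtain ⟨s, -, a1, -⟩ := f1 u hu
        exact absurd ((show u = v' from h.1) ▸ a1) ((w1 v' hv').2 s)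
  obtain ⟨u, hu, v, hv, rfl⟩ := mem_image₂.1 he
  obtain ⟨s, s1, s2, s3⟩ := f1 u hu
  obtain ⟨v1, v2⟩ := w1 v hv
  have huv : u ≠ v := by rintro rfl; exact v2 s s2
  have mono : Gr B ≤ Gr (insert s(u, v) B) := SimpleGraph.fromEdgeSet_mono (by simp)
  have c4 := card_insert_le s(u, v) B
  have d1 : ∀ w, deg (insert s(u, v) B) w ≤ 3 := by
    intro w
    have a1 := deg_insert B u v w
    have a2 := h1 w
    split_ifs at a1 with h
    · rcases h with rfl | rfl <;> omega
    · omega
  set U' := Function.update U s (insert v (U s)) with hU'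
  have e1 : U' s = insert v (U s) := Function.update_self ..
  have e2 : ∀ s', s' ≠ s → U' s' = U s' := fun s' h => Function.update_of_ne h ..
  have e3 : (U' s).card = j + 1 := by rw [e1, card_insert_of_notMem (v2 s), s1]
  have g1 : ∀ a b, a ≠ b → Disjoint (U' a) (U' b) := by
    have : ∀ b, s ≠ b → Disjoint (U' s) (U' b) := fun b h => by
      rw [e1, e2 b h.symm, disjoint_insert_left]; exact ⟨v2 b, u1 s b h⟩
    intro a b hab
    by_cases ha : a = s
    · subst ha; exact this b hab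
    by_cases hb : b = s
    · subst hb; exact (this a hab.symm).symm
    · rw [e2 a ha, e2 b hb]; exact u1 a b hab
  have g2 : ∀ a, (U' a).card ≤ j + 1 ∧ (∃ r, ∀ w ∈ U' a, (Gr (insert s(u, v) B)).Reachable r w) ∧
      ∑ w ∈ U' a, deg (insert s(u, v) B) w ≤ 2 * (U' a).card := by
    intro a
    obtain ⟨a1, ⟨r, a2⟩, a3⟩ := u2 a
    by_cases ha : a = s
    · subst ha
      refine ⟨e3.le, ⟨r, fun w hw => ?_⟩, ?_⟩
      · rcases mem_insert.1 (e1 ▸ hw) with rfl | hw
        · exact ((a2 u s2).mono mono).trans (SimpleGraph.Adj.reachable (by simp [Gr, huv]))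
        · exact (a2 w hw).mono mono
      · rw [e3, e1, sum_insert (v2 a)]
        have b1 := deg_insert B u v v
        have b2 : ∑ w ∈ U a, deg (insert s(u, v) B) w ≤ ∑ w ∈ U a, (deg B w + if w = u then 1 else 0) :=
          sum_le_sum fun w hw => by
            have : w ≠ v := by rintro rfl; exact v2 a hw
            simpa [this] using deg_insert B u v w
        rw [sum_add_distrib, sum_ite_eq', if_pos s2] at b2
        simp only [or_true, if_true] at b1
        omega
    · rw [e2 a ha]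
      refine ⟨a1, ⟨r, fun w hw => (a2 w hw).mono mono⟩, le_trans (sum_le_sum fun w hw => ?_) a3⟩
      have b1 : w ≠ v := by rintro rfl; exact v2 a hw
      have b2 : w ≠ u := by rintro rfl; exact disjoint_left.1 (u1 a s ha) hw s2
      simpa [b1, b2] using deg_insert B u v w
  have g3 : J.card ≤ (univ.filter fun a => (U' a).card = j).card + 1 := by
    refine le_trans (card_le_card fun a ha => ?_) (card_insert_le s _)
    by_cases h : a = s
    · simp [h]
    · simpa [h, e2 a h, hJ] using ha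
  have g4 : c + 1 ≤ (univ.filter fun a => (U' a).card = j + 1).card := by
    refine (Nat.succ_le_succ u4).trans ((card_insert_of_notMem (a := s) (by simp [s1])).symm.le.trans
      (card_le_card fun a ha => ?_))
    by_cases h : a = s
    · simp [h, e3]
    · simpa [h, e2 a h] using ha
  have c5 := hm (j + 1) (by omega)
  unfold nxt
  split_ifs with h
  · simp only at h
    refine ⟨d1, by simp only; omega, by simp, ?_, U', g1, fun a => ⟨by have := (g2 a).1; omega, (g2 a).2⟩,
      by simp only; omega, by simp⟩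
    by_cases e : j + 1 = k
    exacts [Or.inr ⟨e, rfl⟩, Or.inl (hp _ (by simp only; omega))]
  · simp only at h
    exact ⟨d1, by simp only; omega, h3, Or.inl (by simp only; omega), U', g1, g2, by simp only; omega, g4⟩

open Classical in
noncomputable def st (m : ℕ → ℕ) (k : ℕ) : List (Sym2 (Fin n)) → (ℕ × ℕ) × Finset (Sym2 (Fin n))
  | [] => ((1, 0), ∅)
  | e :: l => if (st m k l).1.1 < k ∧ Valid m k (nxt m (st m k l).1) (insert e (st m k l).2) then
      (nxt m (st m k l).1, insert e (st m k l).2) else st m k l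

open Classical in
noncomputable def S (m : ℕ → ℕ) (k : ℕ) : List (Sym2 (Fin n)) → Bool
  | [] => false
  | e :: l => decide ((st m k l).1.1 < k ∧ Valid m k (nxt m (st m k l).1) (insert e (st m k l).2))

lemma bought_eq (m : ℕ → ℕ) (k : ℕ) (l : List (Sym2 (Fin n))) : bought (S m k) l = (st m k l).2 := by
  induction l with
  | nil => rfl
  | cons e l ih =>
    rw [bought, S, st, ih]
    by_cases h : (st m k l).1.1 < k ∧ Valid m k (nxt m (st m k l).1) (insert e (st m k l).2) <;> simp [h]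

lemma budget (m : ℕ → ℕ) (k : ℕ) (l : List (Sym2 (Fin n))) : (bought (S m k) l).card ≤ m 1 := by
  rw [bought_eq]
  induction l with
  | nil => simp [st]
  | cons e l ih =>
    rw [st]
    split_ifs with h
    · have h1 := h.2.2.1
      have h2 := h.2.2.2.2.1
      simp only; omega
    · exact ih

lemma bought_sub {α : Type} [DecidableEq α] (S : List α → Bool) (l : List α) : bought S l ⊆ l.toFinset := by
  induction l with
  | nil => rfl
  | cons e l ih =>
    rw [bought, List.toFinset_cons]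
    split_ifs
    exacts [insert_subset_insert _ ih, ih.trans (subset_insert _ _)]

lemma valid_st {m : ℕ → ℕ} {k : ℕ} (h1 : 2 * m 2 ≤ m 1) (h2 : 0 < m 2) (hn : m 1 ≤ n) (hk : 1 ≤ k)
    (l : List (Sym2 (Fin n))) : Valid m k (st m k l).1 (st m k l).2 ∧ (st m k l).1.1 ≤ k := by
  induction l with
  | nil =>
    refine ⟨⟨by simp [st, deg], by simpa [st] using h1, le_rfl, Or.inl h2, fun s => {Fin.castLE hn s},
      fun s s' h => by simpa using h, fun s => ⟨by simp, ⟨Fin.castLE hn s, by simp⟩, by simp [st, deg]⟩,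
      by simp [st], by simp [st]⟩, hk⟩
  | cons e l ih =>
    rw [st]
    split_ifs with h
    · refine ⟨h.2, ?_⟩
      have := h.1
      unfold nxt; split_ifs <;> simp only <;> omega
    · exact ih

lemma done {m : ℕ → ℕ} {k : ℕ} {x : ℕ × ℕ} {B : Finset (Sym2 (Fin n))} (hp : 0 < m k) (h0 : m (k + 1) = 0)
    (h : Valid m k x B) (hx : x.1 = k) : Gr B ∈ P k n := by
  obtain ⟨h1, -, -, h4, U, -, u2, u3, -⟩ := h
  rw [hx] at h4 u3
  obtain ⟨s, hs⟩ := card_pos.1 (show 0 < (univ.filter fun s => (U s).card = k).card by omega)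
  obtain ⟨-, ⟨r, h2⟩, -⟩ := u2 s
  refine ⟨_, le_rfl, fun v => le_trans ?_ (h1 v), r, ?_⟩
  · rw [deg, ← Set.ncard_coe_finset]
    refine Set.ncard_le_ncard_of_injOn (fun w => s(v, w)) (fun w hw => ?_) fun a _ b _ h => Sym2.congr_right.1 h
    simpa using ((SimpleGraph.fromEdgeSet_adj _).1 hw).1
  · rw [← (mem_filter.1 hs).2, ← Set.ncard_coe_finset]
    exact Set.ncard_le_ncard h2

noncomputable def ψ (m : ℕ → ℕ) (k : ℕ) (x : ℕ × ℕ) : ℝ :=
  if x.1 < k then Real.exp (k - x.1 - x.2 / m (x.1 + 1)) else 0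

lemma ψ_nxt {m : ℕ → ℕ} {k : ℕ} {x : ℕ × ℕ} (hx : x.1 < k) (hp : 0 < m (x.1 + 1)) :
    ψ m k (nxt m x) ≤ ψ m k x * (1 - 1 / (2 * m (x.1 + 1))) := by
  have h1 : (1 : ℝ) ≤ m (x.1 + 1) := by exact_mod_cast hp
  have h2 : Real.exp (-(1 / m (x.1 + 1))) ≤ 1 - 1 / (2 * m (x.1 + 1)) := by
    have a1 : (1 : ℝ) / (2 * m (x.1 + 1)) = 1 / m (x.1 + 1) / 2 := by field_simp
    have a2 : (1 : ℝ) / m (x.1 + 1) ≤ 1 := by rwa [div_le_one (by linarith)]
    have a3 : (0 : ℝ) ≤ 1 / m (x.1 + 1) := by positivity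
    rw [a1, Real.exp_neg, inv_le_iff_one_le_mul₀ (Real.exp_pos _)]
    nlinarith [Real.add_one_le_exp (1 / m (x.1 + 1))]
  rw [ψ, ψ, if_pos hx]
  refine le_trans ?_ (mul_le_mul_of_nonneg_left h2 (Real.exp_pos _).le)
  rw [← Real.exp_add]
  split_ifs
  · refine Real.exp_le_exp.2 (le_of_eq ?_)
    unfold nxt
    split_ifs with h
    · have : (x.2 : ℝ) = m (x.1 + 1) - 1 := by rw [← h]; simp
      rw [this]; push_cast; field_simp; ring
    · push_cast; ring
  · positivity

lemma upper {m : ℕ → ℕ} {k : ℕ} (hk : 288 ≤ k) (hm : ∀ j, 1 ≤ j → j < k → 2 * k * m (j + 1) ≤ m j * j)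
    (hp : ∀ j ≤ k, 0 < m j) (h0 : ∀ j, k < j → m j = 0) (hn : 2 * (m 1 * (k + 2)) ≤ n) :
    prob (T := K n) {σ | Gr (bought (S m k) (hist σ (24 * n))) ∉ P k n} ≤ Real.exp (-k) := by
  have m1 := hp 1 (by omega)
  have m2 : ∀ j, 1 ≤ j → 2 * m (j + 1) ≤ m j := fun j hj => by
    by_cases h : j < k
    · have := hm j hj h
      nlinarith
    · simp [h0 (j + 1) (by omega)]
  have n1 : 2 * (k + 2) ≤ n := by nlinarith
  have hv := valid_st (n := n) (k := k) (m2 1 le_rfl) (hp 2 (by omega)) (by nlinarith) (by omega)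
  have k1 : 2 * (K n).card = n * (n - 1) := by
    rw [card_K, Nat.choose_two_right, Nat.two_mul_div_two_of_even (Nat.even_mul_pred_self n)]
  have n0 : (0 : ℝ) < n := by exact_mod_cast (by omega)
  set η : ℝ := k / (12 * n) with hη
  have η1 : 0 ≤ 1 - η := by
    rw [hη, sub_nonneg, div_le_one (by positivity)]; exact_mod_cast (by omega)
  have ψ0 : ∀ x, 0 ≤ ψ m k x := fun x => by unfold ψ; split_ifs <;> positivity
  have k2 : 24 * n ≤ (K n).card := by
    have : 48 ≤ n - 1 := by omega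
    nlinarith
  refine (markov (fun l => ψ m k (st m k l).1 * (1 - η) ^ (24 * n - l.length)) k2 (fun l => mul_nonneg (ψ0 _) (by positivity)) (fun l hl hc => ?_) fun σ hσ => ?_).trans ?_
  · simp only [List.length_cons]
    rw [← sum_mul, show 24 * n - l.length = 24 * n - (l.length + 1) + 1 by omega, pow_succ', ← mul_assoc,
      ← mul_assoc]
    refine mul_le_mul_of_nonneg_right ?_ (by positivity)
    by_cases hj : (st m k l).1.1 < k
    swap
    · simp [st, hj, ψ]
    obtain ⟨A, a1, a2, a3⟩ := avail m2 hp hn hj (hv l).1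
    have a4 := hp _ hj
    have a5 := ψ_nxt hj a4
    set x := (st m k l).1 with hx
    set M : ℝ := (m (x.1 + 1) : ℝ) with hM
    have M0 : 0 < M := by rw [hM]; exact_mod_cast a4
    have a6 : ∀ e ∈ K n \ l.toFinset, ψ m k (st m k (e :: l)).1 ≤
        ψ m k x - if e ∈ A then ψ m k x / (2 * M) else 0 := by
      intro e _
      have b1 : 0 ≤ ψ m k x / (2 * M) := div_nonneg (ψ0 _) (by positivity)
      have b2 : ψ m k x * (1 - 1 / (2 * M)) = ψ m k x - ψ m k x / (2 * M) := by ring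
      rw [st]
      split_ifs with h h' h'
      exacts [by simp only; linarith, by simp only; linarith, absurd ⟨hj, a3 e h'⟩ h, by simp [hx]]
    refine (sum_le_sum a6).trans ?_
    rw [sum_sub_distrib, sum_const, hc, sum_ite_mem, sum_const, nsmul_eq_mul, nsmul_eq_mul]
    have a7 : A.card ≤ ((K n \ l.toFinset) ∩ A).card + 24 * n := by
      refine (card_le_card (t := ((K n \ l.toFinset) ∩ A) ∪ l.toFinset) fun e he => ?_).trans
        ((card_union_le _ _).trans (Nat.add_le_add_left ((List.toFinset_card_le l).trans hl.le) _))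
      by_cases h : e ∈ l <;> simp [h, he, a1 he]
    have a8 := hm x.1 (hv l).1.2.2.1 hj
    have a9 : k * m (x.1 + 1) * n ≤ 12 * ((K n \ l.toFinset) ∩ A).card := by
      have b1 := Nat.mul_le_mul_right n a8
      have b2 : 288 * 1 * n ≤ k * m (x.1 + 1) * n := by gcongr; exact a4
      nlinarith
    have b3 : ((((K n).card - l.length : ℕ) : ℝ)) * η ≤ (((K n \ l.toFinset) ∩ A).card : ℝ) / (2 * M) := by
      have c1 : ((((K n).card - l.length : ℕ) : ℝ)) * 2 ≤ n * n := by
        have : n * (n - 1) ≤ n * n := by gcongr; omega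
        exact_mod_cast (by omega)
      have c2 : (k : ℝ) * M * n ≤ 12 * (((K n \ l.toFinset) ∩ A).card : ℝ) := by
        rw [hM]; exact_mod_cast a9
      rw [hη, le_div_iff₀ (by positivity), mul_div_assoc', div_mul_eq_mul_div, div_le_iff₀ (by positivity)]
      nlinarith [mul_le_mul_of_nonneg_left c1 (show 0 ≤ (k : ℝ) * M by positivity),
        mul_le_mul_of_nonneg_left c2 n0.le]
    have := mul_le_mul_of_nonneg_left b3 (ψ0 x)
    have e : ∀ a : ℝ, a * (ψ m k x / (2 * M)) = ψ m k x * (a / (2 * M)) := fun a => by ring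
    rw [e]
    linarith
  · have a1 := hv (hist σ (24 * n))
    have a2 : (st m k (hist σ (24 * n))).1.1 < k := lt_of_le_of_ne a1.2 fun h =>
      hσ (by rw [bought_eq]; exact done (hp k le_rfl) (h0 _ (by omega)) a1.1 h)
    have a3 := a1.1.2.2.2.1
    rw [len_hist σ k2, Nat.sub_self, pow_zero, mul_one, ψ, if_pos a2]
    refine Real.one_le_exp ?_
    have a4 : ((st m k (hist σ (24 * n))).1.1 : ℝ) + 1 ≤ k := by exact_mod_cast a2
    have a5 : ((st m k (hist σ (24 * n))).1.2 : ℝ) / m ((st m k (hist σ (24 * n))).1.1 + 1) ≤ 1 :=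
      div_le_one_of_le₀ (by exact_mod_cast (by omega)) (by positivity)
    linarith
  · show ψ m k (1, 0) * (1 - η) ^ (24 * n) ≤ _
    rw [ψ, if_pos (show 1 < k by omega)]
    refine (mul_le_mul_of_nonneg_left (pow_le_pow_left₀ η1 (Real.one_sub_le_exp_neg η) _)
      (Real.exp_pos _).le).trans ?_
    rw [← Real.exp_nat_mul, ← Real.exp_add, Real.exp_le_exp, hη]
    push_cast; field_simp; simp; linarith

lemma exm (k : ℕ) : ∃ m : ℕ → ℕ, (∀ j, 1 ≤ j → j < k → 2 * k * m (j + 1) ≤ m j * j) ∧ (∀ j ≤ k, 0 < m j) ∧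
    (∀ j, k < j → m j = 0) ∧ m 1 ≤ 32 ^ k := by
  refine ⟨fun j => if j ≤ k then ∏ i ∈ Ico j k, (2 * k / i + 1) else 0, fun j h1 h2 => ?_,
    fun j hj => by simp [hj], fun j hj => if_neg (by omega), ?_⟩
  · simp only [if_pos h2.le, if_pos (show j + 1 ≤ k from h2)]
    rw [prod_eq_prod_Ico_succ_bot h2, mul_right_comm]
    rw [mul_right_comm (2 * k / j + 1), mul_right_comm 2, mul_comm _ j]
    exact Nat.mul_le_mul_right _ (Nat.lt_mul_div_succ _ h1).le
  · simp only
    split_ifs with h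
    swap
    · simp
    have h1 : ((∏ i ∈ Ico 1 k, (2 * k / i + 1) : ℕ) : ℝ) ≤ ∏ i ∈ Ico 1 k, (3 * k : ℝ) / i := by
      rw [Nat.cast_prod]
      refine prod_le_prod (fun _ _ => by positivity) fun i hi => ?_
      rw [mem_Ico] at hi
      rw [le_div_iff₀ (by exact_mod_cast hi.1)]
      have := Nat.div_mul_le_self (2 * k) i
      exact_mod_cast (by nlinarith)
    obtain ⟨k, rfl⟩ : ∃ j, k = j + 1 := ⟨k - 1, by omega⟩
    rw [prod_div_distrib, prod_const, ← Nat.cast_prod, prod_Ico_id_eq_factorial, Nat.card_Ico,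
      Nat.add_sub_cancel] at h1
    have h2 := h1.trans (Real.pow_div_factorial_le_exp _ (by positivity) _)
    rw [mul_comm (3 : ℝ), Real.exp_nat_mul] at h2
    have h3 : Real.exp 3 ≤ 32 := by
      rw [show (3 : ℝ) = (3 : ℕ) * 1 by norm_num, Real.exp_nat_mul]
      exact (pow_le_pow_left₀ (Real.exp_pos _).le Real.exp_one_lt_three.le 3).trans (by norm_num)
    exact_mod_cast h2.trans (pow_le_pow_left₀ (Real.exp_pos _).le h3 _)

lemma lower' {k : ℕ} (h1 : 1024 ^ (k + 1) ≤ n) (h2 : n < 1024 ^ (k + 2)) :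
    prob (T := K n) {σ | Gr (hist σ (n / 2 ^ 16)).toFinset ∈ P (k + 1) n} ≤ 2 ^ 22 * (1 / 2) ^ k := by
  have n1 : 1024 ≤ n := le_trans (by simpa using Nat.pow_le_pow_right (n := 1024) (by norm_num) (Nat.le_add_left 1 k)) h1
  have k1 : 2 * (K n).card = n * (n - 1) := by
    rw [card_K, Nat.choose_two_right, Nat.two_mul_div_two_of_even (Nat.even_mul_pred_self n)]
  have k2 : n * n + 8 * n ≤ 8 * (K n).card := by
    obtain ⟨n, rfl⟩ : ∃ j, n = j + 1 := ⟨n - 1, by omega⟩
    rw [Nat.add_sub_cancel] at k1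
    nlinarith
  have k3 : 1024 * n ≤ n * n := by gcongr
  have n0 : (0 : ℝ) < n := by exact_mod_cast (by omega)
  refine (lower (by omega)).trans ?_
  have a1 : ((n / 2 ^ 16 : ℕ) : ℝ) / ((K n).card - n / 2 ^ 16 : ℕ) ≤ (1 / 2) ^ 13 / n := by
    rw [div_le_div_iff₀ (by exact_mod_cast (by omega)) n0]
    have b1 : ((n / 2 ^ 16 : ℕ) : ℝ) * 2 ^ 16 ≤ n := by exact_mod_cast Nat.div_mul_le_self _ _
    have b2 : (n : ℝ) * n ≤ 8 * ((K n).card - n / 2 ^ 16 : ℕ) := by exact_mod_cast (by omega)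
    nlinarith
  have a2 : ((n.choose (k + 1) * (k + 1) ^ (k + 1) : ℕ) : ℝ) ≤ n ^ (k + 1) * 4 ^ (k + 1) := by
    have b1 := Nat.choose_le_pow_div (α := ℝ) (k + 1) n
    have b2 := Real.pow_div_factorial_le_exp ((k + 1 : ℕ) : ℝ) (by positivity) (k + 1)
    rw [← mul_one ((k + 1 : ℕ) : ℝ), Real.exp_nat_mul, mul_one] at b2
    have b3 := b2.trans (pow_le_pow_left₀ (Real.exp_pos _).le
      (Real.exp_one_lt_three.le.trans (show (3 : ℝ) ≤ 4 by norm_num)) _)
    rw [Nat.cast_mul, Nat.cast_pow]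
    calc _ ≤ (n : ℝ) ^ (k + 1) / (k + 1).factorial * ((k + 1 : ℕ) : ℝ) ^ (k + 1) := by gcongr
      _ = n ^ (k + 1) * (((k + 1 : ℕ) : ℝ) ^ (k + 1) / (k + 1).factorial) := by ring
      _ ≤ _ := by gcongr
  have a3 : (n : ℝ) ≤ 1024 ^ (k + 2) := by exact_mod_cast h2.le
  calc _ ≤ (n ^ (k + 1) * 4 ^ (k + 1)) * ((1 / 2 : ℝ) ^ 13 / n) ^ k := by gcongr
    _ = n * 4 ^ (k + 1) * ((1 / 2 : ℝ) ^ 13) ^ k := by rw [div_pow]; field_simp; ring
    _ ≤ 1024 ^ (k + 2) * 4 ^ (k + 1) * ((1 / 2 : ℝ) ^ 13) ^ k := by gcongr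
    _ = 2 ^ 22 * (1024 * 4 * (1 / 2 : ℝ) ^ 13) ^ k := by rw [mul_pow, mul_pow]; ring
    _ = _ := by norm_num

lemma P_up (k n : ℕ) : IsUpperSet (P k n) := fun _ _ h ⟨H, h1, h2⟩ => ⟨H, h1.trans h, h2⟩

/-- There is a bounded-degree monotone increasing property with hitting time `Θ(n)` and a successful
`(t, b)`-strategy with `t = Θ(n)` and `b ≤ √n`, so `b = o(t / log n)`. -/
theorem result : ∃ P : ∀ n, Set (SimpleGraph (Fin n)),
    (∀ n G H, G ∈ P n → Nonempty (G ≃g H) → H ∈ P n) ∧ (∀ n, IsUpperSet (P n)) ∧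
    (∃ Δ : ℕ, ∀ n G, Minimal (· ∈ P n) G → ∀ v, (G.neighborSet v).ncard ≤ Δ) ∧
    ∃ (c C : ℝ) (t b : ℕ → ℕ) (S : ∀ n, List (Sym2 (Fin n)) → Bool), 0 < c ∧
      Tendsto (fun n : ℕ => prob (T := K n) {σ | c * n ≤ hit (P n) σ ∧ hit (P n) σ ≤ C * n}) atTop (𝓝 1) ∧
      (∀ n : ℕ, c * n ≤ t n ∧ t n ≤ C * n) ∧
      (∀ n (σ : Ord (K n)), (bought (S n) (hist σ (t n))).card ≤ b n) ∧
      Tendsto (fun n => prob (T := K n) {σ | Gr (bought (S n) (hist σ (t n))) ∈ P n}) atTop (𝓝 1) ∧
      (∀ n, 1 ≤ n → b n ^ 2 ≤ n) ∧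
      Tendsto (fun n => (b n : ℝ) / (t n / Real.log n)) atTop (𝓝 0) := by
  choose m m1 m2 m3 m4 using exm
  set k : ℕ → ℕ := Nat.log 1024 with hk
  have k1 : Tendsto k atTop atTop := tendsto_atTop.2 fun a => by
    filter_upwards [eventually_ge_atTop (1024 ^ a)] with n hn
    exact Nat.le_log_of_pow_le (by norm_num) hn
  have b1 : ∀ n, 1 ≤ n → (32 ^ k n) ^ 2 ≤ n := fun n hn => by
    rw [← pow_mul, mul_comm, pow_mul]; exact Nat.pow_log_le_self _ (by omega)
  have t1 : Tendsto (fun n => Real.exp (-(k n : ℝ))) atTop (𝓝 0) :=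
    Real.tendsto_exp_neg_atTop_nhds_zero.comp (tendsto_natCast_atTop_atTop.comp k1)
  have t2 : Tendsto (fun n => (2 ^ 22 * (1 / 2) ^ (k n - 1) : ℝ)) atTop (𝓝 (2 ^ 22 * 0)) :=
    ((tendsto_pow_atTop_nhds_zero_of_lt_one (by norm_num) (by norm_num)).comp
      ((tendsto_sub_atTop_nat 1).comp k1)).const_mul _
  have key : ∀ A : ∀ n, Set (Ord (K n)), (∀ n σ, Gr (bought (S (m (k n)) (k n)) (hist σ (24 * n))) ∈ P (k n) n →
      Gr (hist σ (n / 2 ^ 16)).toFinset ∉ P (k n) n → σ ∈ A n) →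
      Tendsto (fun n => prob (A n)) atTop (𝓝 1) := by
    intro A hA
    have t3 := (t1.add t2).const_sub 1
    simp only [mul_zero, add_zero, sub_zero] at t3
    refine tendsto_of_tendsto_of_tendsto_of_le_of_le' t3 tendsto_const_nhds ?_
      (Eventually.of_forall fun n => (prob_ge (B := Set.univ) (C := ∅) (by simp)).2)
    filter_upwards [k1.eventually_ge_atTop 288, eventually_ge_atTop 1] with n h1 h2
    have a1 := upper (n := n) h1 (m1 _) (m2 _) (m3 _) (by
      have c1 := b1 n h2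
      have c2 : 2 * (k n + 2) ≤ 32 ^ k n := by
        have := one_add_mul_le_pow (show (-2 : ℤ) ≤ 31 by norm_num) (k n)
        norm_num at this
        have : (2 : ℤ) * (k n + 2) ≤ 32 ^ k n := le_trans (by omega) this
        exact_mod_cast this
      nlinarith [Nat.mul_le_mul (m4 (k n)) c2])
    obtain ⟨j, hj⟩ : ∃ j, k n = j + 1 := ⟨k n - 1, by omega⟩
    have a2 := lower' (n := n) (k := j) (hj ▸ Nat.pow_log_le_self _ (by omega))
      (by have := Nat.lt_pow_succ_log_self (b := 1024) (by norm_num) n; rwa [show Nat.log 1024 n = j + 1 from hj] at this)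
    rw [← hj] at a2
    refine le_trans ?_ (prob_ge (B := {σ | Gr (bought (S (m (k n)) (k n)) (hist σ (24 * n))) ∉ P (k n) n})
      (C := {σ | Gr (hist σ (n / 2 ^ 16)).toFinset ∈ P (k n) n}) fun σ c1 c2 => hA n σ (not_not.1 c1) c2).1
    rw [hj, Nat.add_sub_cancel, ← hj]
    linarith
  refine ⟨fun n => P (k n) n, ?_, fun n => P_up _ _, ⟨3, fun n G h => ?_⟩, 1 / 2 ^ 16, 24, fun n => 24 * n,
    fun n => 32 ^ k n, fun n => S (m (k n)) (k n), by norm_num, key _ fun n σ h1 h2 => ?_, fun n => ?_,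
    fun n σ => (budget _ _ _).trans (m4 _), key _ fun n σ h _ => h, b1, ?_⟩
  · rintro n G G' ⟨H, h1, h2, r, h3⟩ ⟨e⟩
    have e' : H.comap e.symm ≃g H := SimpleGraph.Iso.comap e.symm.toEquiv H
    refine ⟨H.comap e.symm, fun u v h => e.symm.map_adj_iff.1 (h1 h), fun v => ?_, e'.symm r, ?_⟩
    · rw [Set.ncard_congr' (e'.mapNeighborSet v)]; exact h2 _
    · refine h3.trans (Set.ncard_le_ncard_of_injOn e'.symm (fun v hv => ?_) e'.symm.injective.injOn)
      exact SimpleGraph.Iso.reachable_iff.2 hv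
  · obtain ⟨H, h1, h2, h3⟩ := h.1
    rwa [← le_antisymm h1 (h.2 ⟨H, le_rfl, h2, h3⟩ h1)]
  · have h3 : 24 * n ∈ {t | Gr (hist σ t).toFinset ∈ P (k n) n} :=
      P_up _ _ (SimpleGraph.fromEdgeSet_mono (coe_subset.2 (bought_sub _ _))) h1
    refine ⟨?_, by exact_mod_cast Nat.sInf_le h3⟩
    have h4 : n / 2 ^ 16 < hit (P (k n) n) σ := by
      by_contra h
      refine h2 (P_up _ _ (SimpleGraph.fromEdgeSet_mono fun e he => ?_) (Nat.sInf_mem ⟨_, h3⟩))
      simp only [mem_coe, List.mem_toFinset, mem_hist] at he ⊢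
      obtain ⟨j, a1, a2⟩ := he
      exact ⟨j, a1.trans_le (not_lt.1 h), a2⟩
    rw [one_div_mul_eq_div, div_le_iff₀ (by positivity)]
    exact_mod_cast (show n ≤ hit (P (k n) n) σ * 2 ^ 16 by omega)
  · have : (0 : ℝ) ≤ n := by positivity
    push_cast
    constructor <;> linarith
  · have t3 := ((isLittleO_log_rpow_atTop (show (0 : ℝ) < 1 / 2 by norm_num)).tendsto_div_nhds_zero).comp
      (tendsto_natCast_atTop_atTop (R := ℝ))
    refine squeeze_zero' (Eventually.of_forall fun n => by have := Real.log_natCast_nonneg n; positivity) ?_ t3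
    filter_upwards [eventually_ge_atTop 1] with n hn
    have a1 := Real.log_natCast_nonneg n
    have a2 : (0 : ℝ) < n := by exact_mod_cast hn
    have a3 : ((32 ^ k n : ℕ) : ℝ) ≤ √n := Real.le_sqrt_of_sq_le (by exact_mod_cast b1 n hn)
    have a4 := Real.mul_self_sqrt a2.le
    have a5 := Real.sqrt_pos.2 a2
    simp only [Function.comp, ← Real.sqrt_eq_rpow]
    rw [div_div_eq_mul_div, div_le_div_iff₀ (by positivity) a5]
    push_cast at a3 ⊢
    nlinarith [mul_le_mul_of_nonneg_right a3 (mul_nonneg a1 a5.le), mul_nonneg a1 a2.le]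

end Pool.Agent.Results.MP_8d021f_pr.Budget
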